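import Pool.Agent.W851.BE.Final

/-!
# Equidistribution of the repelling periodic points on the Berkovich projective line

For every complete algebraically closed non-Archimedean field `K` and every rational map `R` of
degree `d ≥ 2`, the repelling fixed points of `R^n`, weighted by their local degrees, equidistribute
towards the equilibrium measure of `R`.

Joint work of the project BE (helper851) and of the projects BK and EQM (helper95).
-/

open Topology Filter MeasureTheory
open Pool.Agent.W95.BK Pool.Agent.W95.EQ Pool.Agent.W851.BE

namespace Pool.Agent.Results.MP_160e9b_an.Equidistribution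

universe u

/-- Let `K` be a complete algebraically closed non-trivially valued non-Archimedean field and `R` a
rational map of degree `d ≥ 2`. For every equilibrium measure `ρ` of `R` (a probability measure on
the Julia set with `R^* ρ = d ρ`), the set `RF (R^n)` of repelling fixed points of `R^n` is finite
for `n ≥ 1` and `d^{-n} ∑_{x ∈ RF (R^n)} deg_{R^n}(x) δ_x → ρ` weakly. Moreover there is a probability
measure `ρ` with `d^{-n} (R^n)^* δ_x → ρ` for all `x ∈ ℍ_K`, and the same convergence holds for it. -/
theorem result : ∀ (K : Type u) [NontriviallyNormedField K] [IsUltrametricDist K]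
    [CompleteSpace K] [IsAlgClosed K] (R : RMap K), 2 ≤ R.d →
    (∃ ρ : Measure (P1B K), IsProbabilityMeasure ρ ∧ IsEquilibrium R ρ ∧ Concl R ρ) ∧
    ∀ ρ : Measure (P1B K), IsEqMeasure R ρ → Concl R ρ := by
  intro K _ _ _ _ R hd
  exact Asm.final K R hd

end Pool.Agent.Results.MP_160e9b_an.Equidistribution
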